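import Pool.Agent.Helper65.MBD.Upper

/-!
# Connected graphs of odd order with the largest possible Maker-Breaker domination number

For every `c ≥ 3` there is a connected graph of (odd) order `n = 14 c + 1` whose Maker-Breaker
domination number is `7 c + 1 = (n + 1) / 2`.
-/

namespace Pool.Agent.Results.MP_374a5d_co.ExtremalGraphs

open Pool.Agent.Helper65.MBD

theorem result (c : ℕ) (hc : 3 ≤ c) :
    ∃ (V : Type) (_ : Fintype V) (_ : DecidableEq V) (G : SimpleGraph V),
      Fintype.card V = 14 * c + 1 ∧ G.Connected ∧ gammaMB G = ((7 * c + 1 : ℕ) : ℕ∞) := by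
  refine ⟨VV c, inferInstance, inferInstance, GG c, ?_, conn, main hc⟩
  rw [Fintype.card_option, Fintype.card_prod, Fintype.card_fin, Fintype.card_fin]
  omega

end Pool.Agent.Results.MP_374a5d_co.ExtremalGraphs
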